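import Pool.Agent.Zk47.C3.Def
import Pool.Agent.Zk67.C3.B0

set_option autoImplicit false
set_option linter.all false

namespace Pool.Agent.Zk67.C3

open Pool.Agent.Zk54.MQ Pool.Agent.Zk47.C3

theorem eqvP {p : ℕ} [Fact p.Prime] {G U Ω : Type} [Group G] [Group U] [MulAction G Ω]
    {m : (Ω → U) →* G} {α : G → Ω → MulAut U} {P : Sylow p G} (h : WE m α)
    (hP : ∀ x ∈ P, ∀ ω, α x ω = 1) (x : G) (hx : x ∈ P) (u : Ω → U) :
    x * m u * x⁻¹ = m (fun ω => u (x⁻¹ • ω)) := by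
  rw [h.eqv x u]
  congr 1
  funext ω
  rw [hP x hx, MulAut.one_apply]

theorem t_B1 : StB1 := by
  intro p _ G U Ω _ _ _ _ _ _ m α P h hP w hw
  exact b1 (fun x hx u => eqvP h hP x hx u) w hw

theorem t_B2 : StB2 := by
  intro p _ G U Ω _ _ _ _ _ _ m α P h hU hP u hu
  refine b2 ⟨?_⟩ hU (fun x hx u => eqvP h hP x hx u) h.ker u hu
  rintro _ ⟨u, rfl⟩ g
  rw [h.eqv]
  exact ⟨_, rfl⟩

end Pool.Agent.Zk67.C3
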