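import Pool.Agent.Zk47.C3.Def

set_option autoImplicit false
set_option linter.all false

open scoped BigOperators Classical

noncomputable section

namespace Pool.Agent.Zk67.C3

open Pool.Agent.Helper884 Pool.Agent.H254R3.IN
open Pool.Agent.K3h3.KB Pool.Agent.K3h3.MK
open IC (Irr)
open Pool.Agent.K3h83.IN (ov wo fixes S1 S2 S3b)
open Pool.Agent.Zk54.MQ Pool.Agent.Zk47.C3

theorem eqv0 {p : ℕ} [Fact p.Prime] {G U Ω Ω' : Type} [Group G] [Finite G] [Group U]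
    [Finite U] [Fintype Ω] [Fintype Ω'] [MulAction G Ω] {P : Sylow p G}
    [MulAction (Pool.Agent.K3h3.MK.NN P) Ω'] {m : (Ω → U) →* G} {α : G → Ω → MulAut U}
    {π : Ω → Ω'} {α₀ : Pool.Agent.K3h3.MK.NN P → Ω' → MulAut U}
    {m₀ : (Ω' → U) →* Pool.Agent.K3h3.MK.NN P} (c : CD P m α π α₀ m₀)
    (n : Pool.Agent.K3h3.MK.NN P) (v : Ω' → U) :
    n * m₀ v * n⁻¹ = m₀ (fun o => α₀ n (n⁻¹ • o) (v (n⁻¹ • o))) := by
  apply Subtype.ext
  rw [c.hm₀]
  have e : ((n * m₀ v * n⁻¹ : Pool.Agent.K3h3.MK.NN P) : G) =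
      (n : G) * m (fun ω => v (π ω)) * (n : G)⁻¹ := by
    rw [← c.hm₀]
    rfl
  rw [e, c.h.eqv]
  congr 1
  funext ω
  have h1 : π ((n : G)⁻¹ • ω) = n⁻¹ • π ω := c.q.equi n⁻¹ ω
  rw [c.hα₀, h1]

theorem t_F : StF := by
  intro p _ G U Ω Ω' _ _ _ _ _ _ _ P _ m α π α₀ m₀ c τ g hg θ θ₀ hθ hθ₀ n
  constructor
  · rw [fixes_gen m (n : G) (α (n : G)) (c.h.eqv (n : G)) (F := fun ω => g (π ω))
      (fun ω => hg (π ω)) hθ]
    constructor
    · intro h o v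
      obtain ⟨ω, rfl⟩ := c.q.surj o
      have h1 := h ω v
      rw [c.q.equi, c.hα₀] at h1
      exact h1
    · intro h ω v
      have h1 := h (π ω) v
      rw [← c.q.equi, ← c.hα₀] at h1
      exact h1
  · rw [fixes_gen m₀ n (α₀ n) (eqv0 c n) (F := C2.gt τ π g) (C2.gt_irr τ π hg) hθ₀]
    refine forall_congr' fun o => forall_congr' fun v => ?_
    have hK := C2.K_smul c.q n o
    unfold C2.gt
    rw [hK]
    exact (τ (C2.K π o)).injective.eq_iff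

end Pool.Agent.Zk67.C3

end
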