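import Pool.Agent.Zk84.M4.Stm6
import Pool.Agent.Zk76.Wt.Weights

/-!
Bodies with infinitely many symmetries are invariant under a circle of rotations.
-/

set_option autoImplicit false

namespace Pool.Agent.Zk67.M4

open Complex Set Pool.Agent.Zk84.M4

/-- real coordinates -/
noncomputable def Rc : (ℂ × ℂ) ≃ₗ[ℝ] EuclideanSpace ℝ (Fin 4) where
  toFun z := !₂[z.1.re, z.1.im, z.2.re, z.2.im]
  invFun x := (⟨x 0, x 1⟩, ⟨x 2, x 3⟩)
  map_add' z w := by
    ext i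
    fin_cases i <;> simp
  map_smul' r z := by
    ext i
    fin_cases i <;> simp
  left_inv z := by
    apply Prod.ext <;> apply Complex.ext <;> simp
  right_inv x := by
    ext i
    fin_cases i <;> simp

theorem Rc_apply (z : ℂ × ℂ) : Rc z = !₂[z.1.re, z.1.im, z.2.re, z.2.im] := rfl

theorem exp_re (s : ℝ) (z : ℂ) : (Complex.exp ((s : ℂ) * Complex.I) * z).re =
    Real.cos s * z.re - Real.sin s * z.im := by
  rw [Complex.mul_re, Complex.exp_ofReal_mul_I_re, Complex.exp_ofReal_mul_I_im]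

theorem exp_im (s : ℝ) (z : ℂ) : (Complex.exp ((s : ℂ) * Complex.I) * z).im =
    Real.sin s * z.re + Real.cos s * z.im := by
  rw [Complex.mul_im, Complex.exp_ofReal_mul_I_re, Complex.exp_ofReal_mul_I_im]
  ring

theorem turn_Rc (k t : ℝ) (z : ℂ × ℂ) : turn k 1 t (Rc z) =
    Rc (Complex.exp ((k : ℂ) * (t : ℂ) * Complex.I) * z.1, Complex.exp ((t : ℂ) * Complex.I) * z.2) := by
  have e1 : (k : ℂ) * (t : ℂ) * Complex.I = ((k * t : ℝ) : ℂ) * Complex.I := by push_cast; ring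
  rw [Rc_apply, Rc_apply, e1]
  ext i
  fin_cases i
  · simpa [turn] using (exp_re (k * t) z.1).symm
  · simpa [turn] using (exp_im (k * t) z.1).symm
  · simpa [turn] using (exp_re t z.2).symm
  · simpa [turn] using (exp_im t z.2).symm

theorem te : Pool.Agent.Zk84.M4.TE := by
  intro K _ hc hi hinf
  obtain ⟨k, hk0, hk1, L, c, hL⟩ := Pool.Agent.Zk76.Wt.exists_weights
    (E := EuclideanSpace ℝ (Fin 4)) finrank_euclideanSpace_fin hc hi hinf
  refine ⟨k, hk0, hk1, ?_⟩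
  let T : (ℂ × ℂ) ≃ᵃ[ℝ] EuclideanSpace ℝ (Fin 4) :=
    L.toLinearEquiv.toAffineEquiv.trans (AffineEquiv.constVAdd ℝ _ c)
  have hT : ∀ z, T z = c + L z := fun z => rfl
  let g : EuclideanSpace ℝ (Fin 4) ≃ᵃ[ℝ] EuclideanSpace ℝ (Fin 4) := T.symm.trans Rc.toAffineEquiv
  have hg : ∀ x, g x = Rc (T.symm x) := fun x => rfl
  refine ⟨g, ?_⟩
  rintro t _ ⟨y, hy, rfl⟩
  obtain ⟨z, rfl⟩ : ∃ z, T z = y := ⟨T.symm y, T.apply_symm_apply y⟩
  rw [hg, T.symm_apply_apply, turn_Rc]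
  rw [hT] at hy
  refine ⟨_, hL t z hy, ?_⟩
  rw [← hT, hg, T.symm_apply_apply]

end Pool.Agent.Zk67.M4
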