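import Pool.Agent.Zk97.CB.XDefs

set_option autoImplicit false
set_option linter.all false

/-! The linear algebra of the divisor class group. -/

namespace Pool.Agent.Zk67.CBX

open Pool.Agent.Zk97.CB

/-- ranks -/
theorem rank_split {D U : Type} [AddCommGroup D] [AddCommGroup U] (P E : AddSubgroup D)
    (φ : U →+ D) (k : Submodule ℤ U) (hk : ∀ u, u ∈ k ↔ φ u = 0)
    (hs : ∀ d, ∃ p ∈ P, ∃ e ∈ E, d = p + e)
    (hr : ∀ d, (∃ u, φ u = d) ↔ d ∈ P ∧ d ∈ E) :
    Module.rank ℤ (D ⧸ P) + Module.rank ℤ (U ⧸ k) = Module.rank ℤ E := by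
  set ψ : E →ₗ[ℤ] D ⧸ P := ((QuotientAddGroup.mk' P).comp E.subtype).toIntLinearMap with hψ
  have h1 := LinearMap.rank_range_add_rank_ker ψ
  have hsur : LinearMap.range ψ = ⊤ := by
    rw [LinearMap.range_eq_top]
    intro x
    obtain ⟨d, rfl⟩ := QuotientAddGroup.mk_surjective x
    obtain ⟨p, hp, e, he, hd⟩ := hs d
    refine ⟨⟨e, he⟩, ?_⟩
    show (QuotientAddGroup.mk e : D ⧸ P) = QuotientAddGroup.mk d
    rw [QuotientAddGroup.eq, hd]
    have : -e + (p + e) = p := by abel
    rw [this]; exact hp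
  rw [hsur, rank_top] at h1
  -- the kernel
  have hmem : ∀ u : U, φ u ∈ E := fun u => ((hr (φ u)).1 ⟨u, rfl⟩).2
  set χ : U →ₗ[ℤ] E := (φ.codRestrict E hmem).toIntLinearMap with hχ
  have hχk : LinearMap.ker χ = k := by
    ext u
    rw [LinearMap.mem_ker, hk]
    constructor
    · intro h
      have := congrArg (fun e : E => (e : D)) h
      exact this
    · intro h
      exact Subtype.ext h
  have hχr : LinearMap.range χ = LinearMap.ker ψ := by
    ext e
    rw [LinearMap.mem_range, LinearMap.mem_ker]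
    constructor
    · rintro ⟨u, rfl⟩
      show (QuotientAddGroup.mk (φ u) : D ⧸ P) = 0
      rw [QuotientAddGroup.eq_zero_iff]
      exact ((hr (φ u)).1 ⟨u, rfl⟩).1
    · intro h
      have h2 : (QuotientAddGroup.mk (e : D) : D ⧸ P) = 0 := h
      rw [QuotientAddGroup.eq_zero_iff] at h2
      obtain ⟨u, hu⟩ := (hr e).2 ⟨h2, e.2⟩
      exact ⟨u, Subtype.ext hu⟩
  have h2 : Module.rank ℤ (U ⧸ k) = Module.rank ℤ (LinearMap.ker ψ) := by
    rw [← hχr, ← hχk]
    exact (LinearMap.quotKerEquivRange χ).rank_eq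
  rw [h2]
  exact h1

/-- the value group of a discrete valuation ring -/
theorem valueGroup_equiv {L : Type} [Field L] (O : ValuationSubring L)
    (hO : IsDiscreteValuationRing O) : Nonempty (ℤ ≃+ Additive (O.ValueGroup)ˣ) := by
  obtain ⟨ϖ, hϖ⟩ := IsDiscreteValuationRing.exists_irreducible O
  have hne : (ϖ : L) ≠ 0 := by
    intro h
    exact hϖ.ne_zero (Subtype.ext h)
  have hlt : O.valuation (ϖ : L) < 1 := by
    rw [← ValuationSubring.valuation_lt_one_iff]
    exact (IsLocalRing.mem_maximalIdeal _).2 hϖ.not_isUnit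
  set g : Lˣ := Units.mk0 (ϖ : L) hne with hg
  set γ : (O.ValueGroup)ˣ := Units.map (O.valuation.toMonoidWithZeroHom : L →* O.ValueGroup) g
    with hγ
  have hγv : (γ : O.ValueGroup) = O.valuation (ϖ : L) := rfl
  have hinj : Function.Injective fun n : ℤ => γ ^ n := by
    intro m n h
    have h1 : (γ : O.ValueGroup) ^ m = (γ : O.ValueGroup) ^ n := by
      have := congrArg (fun x : (O.ValueGroup)ˣ => (x : O.ValueGroup)) h
      simpa using this
    have h3 : (0 : O.ValueGroup) < γ := by
      rw [zero_lt_iff]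
      exact γ.ne_zero
    exact zpow_right_injective₀ h3 (by rw [hγv]; exact hlt.ne) h1
  have key : ∀ x : O, (x : L) ≠ 0 → ∃ n : ℤ, O.valuation (x : L) = O.valuation (ϖ : L) ^ n := by
    intro x hx
    have hx0 : x ≠ 0 := by
      rintro rfl
      exact hx rfl
    obtain ⟨n, u, hu⟩ := IsDiscreteValuationRing.eq_unit_mul_pow_irreducible hx0 hϖ
    refine ⟨n, ?_⟩
    have h1 : O.valuation (x : L) = O.valuation ((u : O) : L) * O.valuation (ϖ : L) ^ n := by
      rw [hu]
      push_cast
      rw [map_mul, map_pow]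
    rw [h1, ValuationSubring.valuation_unit, one_mul, zpow_natCast]
  have hsurj : Function.Surjective fun n : ℤ => γ ^ n := by
    intro y
    obtain ⟨x, hx⟩ := O.valuation_surjective (y : O.ValueGroup)
    have hx0 : x ≠ 0 := by
      rintro rfl
      rw [map_zero] at hx
      exact y.ne_zero hx.symm
    rcases O.mem_or_inv_mem x with h | h
    · obtain ⟨n, hn⟩ := key ⟨x, h⟩ hx0
      refine ⟨n, Units.ext ?_⟩
      show ((γ ^ n : (O.ValueGroup)ˣ) : O.ValueGroup) = y
      rw [Units.val_zpow_eq_zpow_val, hγv, ← hn, ← hx]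
    · obtain ⟨n, hn⟩ := key ⟨x⁻¹, h⟩ (inv_ne_zero hx0)
      refine ⟨-n, Units.ext ?_⟩
      show ((γ ^ (-n) : (O.ValueGroup)ˣ) : O.ValueGroup) = y
      rw [Units.val_zpow_eq_zpow_val, hγv, zpow_neg, ← hn, ← hx]
      show (O.valuation x⁻¹)⁻¹ = O.valuation x
      rw [map_inv₀, inv_inv]
  let f : ℤ →+ Additive (O.ValueGroup)ˣ :=
    { toFun := fun n => Additive.ofMul (γ ^ n)
      map_zero' := by simp
      map_add' := fun m n => by rw [zpow_add]; rfl }
  exact ⟨AddEquiv.ofBijective f ⟨fun m n h => hinj (Additive.ofMul.injective h), fun y => by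
    obtain ⟨n, hn⟩ := hsurj (Additive.toMul y)
    exact ⟨n, congrArg Additive.ofMul hn⟩⟩⟩

section
variable (K L : Type) [Field K] [Field L] [Algebra K L]

/-- the divisors vanishing outside `Z` -/
def EZ (Z : Set (Place K L)) : AddSubgroup (DivP K L) where
  carrier := {D | ∀ O, O ∉ Z → D.1 O = 0}
  zero_mem' := fun O _ => rfl
  add_mem' := by
    intro D D' h h' O hO
    show D.1 O + D'.1 O = 0
    rw [h O hO, h' O hO, add_zero]
  neg_mem' := by
    intro D h O hO
    show -D.1 O = 0
    rw [h O hO, neg_zero]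

variable {K L}

theorem rank_EZ (Z : Set (Place K L)) (hZ : Z.Finite)
    (hdvr : ∀ O ∈ Z, IsDiscreteValuationRing O.1) :
    Module.rank ℤ (EZ K L Z) = (Z.ncard : Cardinal) := by
  classical
  haveI : Fintype Z := hZ.fintype
  have e1 : ∀ z : Z, Nonempty (ℤ ≃+ Additive ((z : Place K L).1.ValueGroup)ˣ) :=
    fun z => valueGroup_equiv _ (hdvr z z.2)
  let e := fun z => (e1 z).some
  let F : EZ K L Z →+ (Z → ℤ) :=
    { toFun := fun D z => (e z).symm (D.1.1 z.1)
      map_zero' := by
        funext z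
        exact map_zero (e z).symm
      map_add' := by
        intro D D'
        funext z
        exact map_add (e z).symm _ _ }
  have hF : Function.Bijective F := by
    constructor
    · intro D D' h
      refine Subtype.ext (Subtype.ext (funext fun O => ?_))
      by_cases hO : O ∈ Z
      · have := congrFun h ⟨O, hO⟩
        exact (e ⟨O, hO⟩).symm.injective this
      · rw [D.2 O hO, D'.2 O hO]
    · intro x
      let D0 : (O : Place K L) → Additive (O.1.ValueGroup)ˣ :=
        fun O => if h : O ∈ Z then e ⟨O, h⟩ (x ⟨O, h⟩) else 0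
      have hD0 : D0 ∈ DivP K L := by
        show {O | D0 O ≠ 0}.Finite
        refine hZ.subset fun O hO => ?_
        by_contra h
        exact hO (dif_neg h)
      refine ⟨⟨⟨D0, hD0⟩, fun O hO => dif_neg hO⟩, ?_⟩
      funext z
      show (e z).symm (D0 z.1) = x z
      have : D0 z.1 = e z (x z) := dif_pos z.2
      rw [this, AddEquiv.symm_apply_apply]
  have h1 := (AddEquiv.ofBijective F hF).toIntLinearEquiv.rank_eq
  rw [h1, rank_fun', Set.ncard_eq_toFinset_card', Set.toFinset_card]

end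

end Pool.Agent.Zk67.CBX
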