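import Pool.Agent.Zk67.M4L12

/-!
The normals at a point which is not lit by three directions.
-/

set_option autoImplicit false

namespace Pool.Agent.Zk67.M4

open Complex Set Pool.Agent.Zk84.M4

theorem inF_add_int (P : Set ℂ) (t : ℝ) (x : ℂ) (n : ℤ) :
    InF P (t + n * (2 * Real.pi)) x ↔ InF P t x := by
  unfold InF
  rw [Real.cos_add_int_mul_two_pi, Real.sin_add_int_mul_two_pi]

/-- a representative in a given half open interval of length `2 pi` -/
theorem exists_rep (t l : ℝ) : ∃ n : ℤ, l ≤ t + n * (2 * Real.pi) ∧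
    t + n * (2 * Real.pi) < l + 2 * Real.pi := by
  have hp : (0 : ℝ) < 2 * Real.pi := by linarith [Real.pi_pos]
  refine ⟨-toIcoDiv hp l t, ?_⟩
  have h := sub_toIcoDiv_zsmul_mem_Ico hp l t
  rw [zsmul_eq_mul] at h
  push_cast
  constructor
  · have := h.1; linarith
  · have := h.2; linarith

/-- sine negative in the open interval `(-pi, 0)` -/
theorem sin_neg_aux {u : ℝ} (h1 : -Real.pi < u) (h2 : u < 0) : Real.sin u < 0 :=
  Real.sin_neg_of_neg_of_neg_pi_lt h2 h1

theorem comb {P : Set ℂ} (hi : (interior P).Nonempty) {a b c al be ga : ℝ} {x : ℂ}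
    (hab : a < b) (hbc : b < c) (hca : c < a + Real.pi)
    (h1 : InF P al x) (h2 : InF P be x) (h3 : InF P ga x)
    (s1 : 0 ≤ Real.sin (a - al)) (s2 : 0 ≤ Real.sin (be - b)) (s3 : 0 ≤ Real.sin (c - ga)) :
    Lk P a b ∨ Lk P c (a + Real.pi) ∨ Lk P (b + Real.pi) (c + Real.pi) := by
  have hpi := Real.pi_pos
  -- the representative of `al`
  obtain ⟨n, hn1, hn2⟩ := exists_rep al (a - Real.pi)
  have h1' := (inF_add_int P al x n).mpr h1
  have s1' : Real.sin (a - (al + n * (2 * Real.pi))) = Real.sin (a - al) := by
    rw [show a - (al + n * (2 * Real.pi)) = a - al - n * (2 * Real.pi) by ring,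
      Real.sin_sub_int_mul_two_pi]
  rw [← s1'] at s1
  clear s1'
  generalize al + n * (2 * Real.pi) = A at h1' s1 hn1 hn2
  have hA : A ≤ a := by
    by_contra h
    push Not at h
    have := sin_neg_aux (u := a - A) (by linarith) (by linarith)
    linarith
  -- the representative of `be`
  obtain ⟨m, hm1, hm2⟩ := exists_rep be (A - Real.pi)
  have h2' := (inF_add_int P be x m).mpr h2
  have s2' : Real.sin (be + m * (2 * Real.pi) - b) = Real.sin (be - b) := by
    rw [show be + m * (2 * Real.pi) - b = be - b + m * (2 * Real.pi) by ring,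
      Real.sin_add_int_mul_two_pi]
  rw [← s2'] at s2
  clear s2'
  generalize be + m * (2 * Real.pi) = B at h2' s2 hm1 hm2
  -- the representative of `ga`
  obtain ⟨k, hk1, hk2⟩ := exists_rep ga (A - Real.pi)
  have h3' := (inF_add_int P ga x k).mpr h3
  have s3' : Real.sin (c - (ga + k * (2 * Real.pi))) = Real.sin (c - ga) := by
    rw [show c - (ga + k * (2 * Real.pi)) = c - ga - k * (2 * Real.pi) by ring,
      Real.sin_sub_int_mul_two_pi]
  rw [← s3'] at s3
  clear s3'
  generalize ga + k * (2 * Real.pi) = C at h3' s3 hk1 hk2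
  -- no opposite normals
  have no1 : A - Real.pi < B := by
    refine lt_of_le_of_ne hm1 fun h => ?_
    refine not_lk hi (A - Real.pi) ⟨x, ?_, ?_⟩
    · rw [h]; exact h2'
    · rw [sub_add_cancel]; exact h1'
  have no2 : A - Real.pi < C := by
    refine lt_of_le_of_ne hk1 fun h => ?_
    refine not_lk hi (A - Real.pi) ⟨x, ?_, ?_⟩
    · rw [h]; exact h3'
    · rw [sub_add_cancel]; exact h1'
  have opp : ∀ B C : ℝ, InF P B x → InF P C x → A - Real.pi < B → A - Real.pi < C →
      B < A - Real.pi + 2 * Real.pi → C < A - Real.pi + 2 * Real.pi → C < B + Real.pi := by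
    intro B C hB hC b1 c1 b2 c2
    by_contra hcon
    push Not at hcon
    rcases hcon.eq_or_lt with h | h
    · refine not_lk hi B ⟨x, hB, ?_⟩
      rw [h]; exact hC
    · -- `A + pi` lies between `C` and `B + 2 pi`
      have hB2 : InF P (B + 2 * Real.pi) x := (inF_add P B x).mpr hB
      have : InF P (A + Real.pi) x :=
        inF_mid (a := C) (b := B + 2 * Real.pi) (by linarith) (by linarith) (by linarith) hC hB2
      exact not_lk hi A ⟨x, h1', this⟩
  have o1 : C < B + Real.pi := opp B C h2' h3' no1 no2 hm2 hk2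
  have o2 : B < C + Real.pi := opp C B h3' h2' no2 no1 hk2 hm2
  by_cases hBb : b ≤ B
  · -- the first case
    left
    exact ⟨x, inF_mid' hA (by linarith) (by linarith) h1' h2',
      inF_mid' (by linarith) hBb (by linarith) h1' h2'⟩
  push Not at hBb
  have hB2 : B ≤ b - Real.pi := by
    by_contra h
    push Not at h
    have := sin_neg_aux (u := B - b) (by linarith) (by linarith)
    linarith
  by_cases hCc : c - Real.pi ≤ C
  · right; right
    refine ⟨x, ?_, ?_⟩
    · have : InF P (b - Real.pi) x := inF_mid' hB2 (by linarith) (by linarith) h2' h3'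
      have e : b + Real.pi = b - Real.pi + 2 * Real.pi := by ring
      rw [e, inF_add]; exact this
    · have : InF P (c - Real.pi) x := inF_mid' (by linarith) hCc (by linarith) h2' h3'
      have e : c + Real.pi = c - Real.pi + 2 * Real.pi := by ring
      rw [e, inF_add]; exact this
  · push Not at hCc
    have hC2 : C ≤ c - 2 * Real.pi := by
      by_contra h
      push Not at h
      have h5 := sin_neg_aux (u := c - C - 2 * Real.pi) (by linarith) (by linarith)
      rw [Real.sin_sub_two_pi] at h5
      linarith
    right; left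
    refine ⟨x, ?_, ?_⟩
    · have : InF P (c - 2 * Real.pi) x := inF_mid' hC2 (by linarith) (by linarith) h3' h1'
      rw [← inF_add] at this
      simpa using this
    · have : InF P (a - Real.pi) x := inF_mid' (by linarith) (by linarith) (by linarith) h3' h1'
      have e : a + Real.pi = a - Real.pi + 2 * Real.pi := by ring
      rw [e, inF_add]; exact this

end Pool.Agent.Zk67.M4
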