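import Pool.Agent.Zk84.M4.Stm5

/-!
Steps 1 and 2 of the parallelogram lemma.
-/

set_option autoImplicit false

namespace Pool.Agent.Zk67.M4

open Complex Set Pool.Agent.Zk84.M4

theorem inF_add (P : Set ℂ) (t : ℝ) (x : ℂ) : InF P (t + 2 * Real.pi) x ↔ InF P t x := by
  unfold InF
  rw [Real.cos_add_two_pi, Real.sin_add_two_pi]

theorem lk_add (P : Set ℂ) (a b : ℝ) :
    Lk P (a + 2 * Real.pi) (b + 2 * Real.pi) ↔ Lk P a b := by
  unfold Lk
  simp only [inF_add]

theorem lk_add_left (P : Set ℂ) (a b : ℝ) : Lk P (a + 2 * Real.pi) b ↔ Lk P a b := by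
  unfold Lk
  simp only [inF_add]

theorem lk_add_right (P : Set ℂ) (a b : ℝ) : Lk P a (b + 2 * Real.pi) ↔ Lk P a b := by
  unfold Lk
  simp only [inF_add]

theorem closed_lk {P : Set ℂ} (hc : IsCompact P) : IsClosed {p : ℝ × ℝ | Lk P p.1 p.2} := by
  haveI : CompactSpace P := isCompact_iff_compactSpace.mp hc
  have h1 : IsClosed {q : (ℝ × ℝ) × P | InF P q.1.1 (q.2 : ℂ) ∧ InF P q.1.2 (q.2 : ℂ)} := by
    have e : {q : (ℝ × ℝ) × P | InF P q.1.1 (q.2 : ℂ) ∧ InF P q.1.2 (q.2 : ℂ)} =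
        (⋂ y : P, {q : (ℝ × ℝ) × P | Real.cos q.1.1 * (y : ℂ).re + Real.sin q.1.1 * (y : ℂ).im ≤
          Real.cos q.1.1 * (q.2 : ℂ).re + Real.sin q.1.1 * (q.2 : ℂ).im}) ∩
        (⋂ y : P, {q : (ℝ × ℝ) × P | Real.cos q.1.2 * (y : ℂ).re + Real.sin q.1.2 * (y : ℂ).im ≤
          Real.cos q.1.2 * (q.2 : ℂ).re + Real.sin q.1.2 * (q.2 : ℂ).im}) := by
      ext q
      simp only [InF, mem_setOf_eq, mem_inter_iff, mem_iInter, Subtype.forall]
      constructor
      · rintro ⟨⟨_, h1⟩, ⟨_, h2⟩⟩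
        exact ⟨h1, h2⟩
      · rintro ⟨h1, h2⟩
        exact ⟨⟨q.2.2, h1⟩, ⟨q.2.2, h2⟩⟩
    rw [e]
    have hv : Continuous fun q : (ℝ × ℝ) × P => (q.2 : ℂ) :=
      continuous_subtype_val.comp continuous_snd
    have hre : Continuous fun q : (ℝ × ℝ) × P => (q.2 : ℂ).re := Complex.continuous_re.comp hv
    have him : Continuous fun q : (ℝ × ℝ) × P => (q.2 : ℂ).im := Complex.continuous_im.comp hv
    have h11 : Continuous fun q : (ℝ × ℝ) × P => q.1.1 := continuous_fst.comp continuous_fst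
    have h12 : Continuous fun q : (ℝ × ℝ) × P => q.1.2 := continuous_snd.comp continuous_fst
    refine IsClosed.inter (isClosed_iInter fun y => ?_) (isClosed_iInter fun y => ?_)
    · exact isClosed_le
        (((Real.continuous_cos.comp h11).mul continuous_const).add
          ((Real.continuous_sin.comp h11).mul continuous_const))
        (((Real.continuous_cos.comp h11).mul hre).add ((Real.continuous_sin.comp h11).mul him))
    · exact isClosed_le
        (((Real.continuous_cos.comp h12).mul continuous_const).add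
          ((Real.continuous_sin.comp h12).mul continuous_const))
        (((Real.continuous_cos.comp h12).mul hre).add ((Real.continuous_sin.comp h12).mul him))
  have h2 := isClosedMap_fst_of_compactSpace _ h1
  convert h2 using 1
  ext p
  simp only [Lk, mem_setOf_eq, mem_image, Prod.exists]
  constructor
  · rintro ⟨x, hx1, hx2⟩
    exact ⟨p.1, p.2, ⟨x, hx1.1⟩, ⟨hx1, hx2⟩, rfl⟩
  · rintro ⟨a, b, x, ⟨h1, h2⟩, h3⟩
    refine ⟨x, ?_, ?_⟩
    · rw [← h3]; exact h1
    · rw [← h3]; exact h2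

theorem not_lk {P : Set ℂ} (hi : (interior P).Nonempty) (a : ℝ) : ¬ Lk P a (a + Real.pi) := by
  rintro ⟨x, h1, h2⟩
  obtain ⟨z, hz⟩ := hi
  have hnh : P ∈ nhds z := mem_interior_iff_mem_nhds.mp hz
  have hcont : Filter.Tendsto (fun r : ℝ => z + (r : ℂ) * (⟨Real.cos a, Real.sin a⟩ : ℂ))
      (nhds 0) (nhds z) := by
    have : Continuous (fun r : ℝ => z + (r : ℂ) * (⟨Real.cos a, Real.sin a⟩ : ℂ)) := by fun_prop
    have h := this.tendsto 0
    simpa using h
  have h3 := hcont.eventually hnh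
  have h4 : ∀ᶠ r : ℝ in nhdsWithin 0 (Ioi 0), z + (r : ℂ) * (⟨Real.cos a, Real.sin a⟩ : ℂ) ∈ P :=
    h3.filter_mono nhdsWithin_le_nhds
  obtain ⟨r, hr, hr0⟩ := (h4.and self_mem_nhdsWithin).exists
  have hr0' : (0 : ℝ) < r := hr0
  have hzP : z ∈ P := interior_subset hz
  have e1 := h1.2 _ hr
  have e2 := h2.2 _ hzP
  rw [Real.cos_add_pi, Real.sin_add_pi] at e2
  simp at e1
  have e3 := Real.cos_sq_add_sin_sq a
  nlinarith [mul_pos hr0' (show (0:ℝ) < 1 by norm_num)]

theorem lk_self {P : Set ℂ} (hc : IsCompact P) (hi : (interior P).Nonempty) (a : ℝ) :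
    Lk P a a := by
  have hne : P.Nonempty := hi.mono interior_subset
  obtain ⟨x, hx, hmax⟩ := hc.exists_isMaxOn hne
    (f := fun y : ℂ => Real.cos a * y.re + Real.sin a * y.im)
    (by
      apply Continuous.continuousOn
      exact (continuous_const.mul Complex.continuous_re).add
        (continuous_const.mul Complex.continuous_im))
  have : InF P a x := ⟨hx, fun y hy => hmax hy⟩
  exact ⟨x, this, this⟩

/-- the key identity -/
theorem key (a b t u v : ℝ) :
    Real.sin (b - a) * (Real.cos t * u + Real.sin t * v) =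
      Real.sin (b - t) * (Real.cos a * u + Real.sin a * v) +
      Real.sin (t - a) * (Real.cos b * u + Real.sin b * v) := by
  rw [Real.sin_sub, Real.sin_sub, Real.sin_sub]
  have e1 := Real.cos_sq_add_sin_sq t
  have e2 := Real.cos_sq_add_sin_sq a
  have e3 := Real.cos_sq_add_sin_sq b
  ring

theorem inF_mid {P : Set ℂ} {a b t : ℝ} {p : ℂ} (h1 : a < t) (h2 : t < b)
    (h3 : b < a + Real.pi) (ha : InF P a p) (hb : InF P b p) : InF P t p := by
  refine ⟨ha.1, fun y hy => ?_⟩
  have s1 : 0 < Real.sin (b - a) := Real.sin_pos_of_pos_of_lt_pi (by linarith) (by linarith)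
  have s2 : 0 < Real.sin (b - t) := Real.sin_pos_of_pos_of_lt_pi (by linarith) (by linarith)
  have s3 : 0 < Real.sin (t - a) := Real.sin_pos_of_pos_of_lt_pi (by linarith) (by linarith)
  have k1 := key a b t y.re y.im
  have k2 := key a b t p.re p.im
  have l1 := mul_le_mul_of_nonneg_left (ha.2 y hy) s2.le
  have l2 := mul_le_mul_of_nonneg_left (hb.2 y hy) s3.le
  refine le_of_mul_le_mul_left ?_ s1
  linarith

theorem inF_unique {P : Set ℂ} {a b t : ℝ} {p q : ℂ} (h1 : a < t) (h2 : t < b)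
    (h3 : b < a + Real.pi) (ha : InF P a p) (hb : InF P b p) (hq : InF P t q) : q = p := by
  have s1 : 0 < Real.sin (b - a) := Real.sin_pos_of_pos_of_lt_pi (by linarith) (by linarith)
  have s2 : 0 < Real.sin (b - t) := Real.sin_pos_of_pos_of_lt_pi (by linarith) (by linarith)
  have s3 : 0 < Real.sin (t - a) := Real.sin_pos_of_pos_of_lt_pi (by linarith) (by linarith)
  have k1 := key a b t q.re q.im
  have k2 := key a b t p.re p.im
  have l0 := mul_le_mul_of_nonneg_left (hq.2 p ha.1) s1.le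
  have l1 := mul_le_mul_of_nonneg_left (ha.2 q hq.1) s2.le
  have l2 := mul_le_mul_of_nonneg_left (hb.2 q hq.1) s3.le
  have m1 : Real.sin (b - t) * (Real.cos a * q.re + Real.sin a * q.im) =
      Real.sin (b - t) * (Real.cos a * p.re + Real.sin a * p.im) := by linarith
  have m2 : Real.sin (t - a) * (Real.cos b * q.re + Real.sin b * q.im) =
      Real.sin (t - a) * (Real.cos b * p.re + Real.sin b * p.im) := by linarith
  have n1 := mul_left_cancel₀ s2.ne' m1
  have n2 := mul_left_cancel₀ s3.ne' m2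
  have s1' := s1
  rw [Real.sin_sub] at s1'
  have d1 : (Real.sin b * Real.cos a - Real.cos b * Real.sin a) * (q.re - p.re) = 0 := by
    linear_combination (Real.sin b) * n1 - (Real.sin a) * n2
  have d2 : (Real.sin b * Real.cos a - Real.cos b * Real.sin a) * (q.im - p.im) = 0 := by
    linear_combination (Real.cos a) * n2 - (Real.cos b) * n1
  have f1 : q.re - p.re = 0 := (mul_eq_zero.mp d1).resolve_left s1'.ne'
  have f2 : q.im - p.im = 0 := (mul_eq_zero.mp d2).resolve_left s1'.ne'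
  exact Complex.ext (by linarith) (by linarith)

theorem inF_mid' {P : Set ℂ} {a b t : ℝ} {p : ℂ} (h1 : a ≤ t) (h2 : t ≤ b)
    (h3 : b < a + Real.pi) (ha : InF P a p) (hb : InF P b p) : InF P t p := by
  rcases h1.eq_or_lt with h | h
  · rw [← h]; exact ha
  rcases h2.eq_or_lt with h' | h'
  · rw [h']; exact hb
  exact inF_mid h h' h3 ha hb

theorem lk_mono {P : Set ℂ} {a b a' b' : ℝ} (h1 : a ≤ a') (h2 : a' ≤ b') (h3 : b' ≤ b)
    (h4 : b < a + Real.pi) (h : Lk P a b) : Lk P a' b' := by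
  obtain ⟨p, ha, hb⟩ := h
  exact ⟨p, inF_mid' h1 (h2.trans h3) h4 ha hb, inF_mid' (h1.trans h2) h3 h4 ha hb⟩

theorem exists_g {P : Set ℂ} (hc : IsCompact P) (hi : (interior P).Nonempty) :
    ∃ g : ℝ → ℝ, (∀ a, a ≤ g a ∧ g a < a + Real.pi ∧ Lk P a (g a)) ∧
      (∀ a b, g a < b → b ≤ a + Real.pi → ¬ Lk P a b) := by
  have key : ∀ a : ℝ, ∃ b : ℝ, (a ≤ b ∧ b < a + Real.pi ∧ Lk P a b) ∧
      ∀ c, b < c → c ≤ a + Real.pi → ¬ Lk P a c := by
    intro a
    have hcl : IsClosed {b : ℝ | Lk P a b} :=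
      (closed_lk hc).preimage (Continuous.prodMk_right a)
    have hcomp : IsCompact (Icc a (a + Real.pi) ∩ {b : ℝ | Lk P a b}) :=
      isCompact_Icc.inter_right hcl
    have hne : (Icc a (a + Real.pi) ∩ {b : ℝ | Lk P a b}).Nonempty :=
      ⟨a, ⟨le_refl a, by linarith [Real.pi_pos]⟩, lk_self hc hi a⟩
    obtain ⟨b, ⟨⟨hb1, hb2⟩, hb3⟩, hmax⟩ := hcomp.exists_isGreatest hne
    refine ⟨b, ⟨hb1, lt_of_le_of_ne hb2 ?_, hb3⟩, ?_⟩
    · rintro rfl
      exact not_lk hi a hb3
    · intro c hc1 hc2 hc3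
      have := hmax ⟨⟨hb1.trans hc1.le, hc2⟩, hc3⟩
      linarith
  choose g hg using key
  exact ⟨g, fun a => (hg a).1, fun a b => (hg a).2 b⟩

theorem near {P : Set ℂ} (hc : IsCompact P) {a b : ℝ} (h : ¬ Lk P a b) :
    ∃ e > 0, ∀ a' b' : ℝ, |a' - a| < e → |b' - b| < e → ¬ Lk P a' b' := by
  have ho : IsOpen {p : ℝ × ℝ | ¬ Lk P p.1 p.2} := (closed_lk hc).isOpen_compl
  obtain ⟨e, he, hs⟩ := Metric.isOpen_iff.mp ho (a, b) h
  refine ⟨e, he, fun a' b' h1 h2 => ?_⟩
  have : ((a', b') : ℝ × ℝ) ∈ Metric.ball ((a, b) : ℝ × ℝ) e := by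
    rw [Metric.mem_ball, Prod.dist_eq, Real.dist_eq, Real.dist_eq]
    exact max_lt h1 h2
  exact hs this

theorem l12 : Pool.Agent.Zk84.M4.L12 := by
  intro P hP hc hi hA
  obtain ⟨g, hg1, hg2⟩ := exists_g hc hi
  have hpi := Real.pi_pos
  -- periodicity
  have hg3 : ∀ a, g (a + 2 * Real.pi) = g a + 2 * Real.pi := by
    intro a
    obtain ⟨u1, u2, u3⟩ := hg1 (a + 2 * Real.pi)
    obtain ⟨v1, v2, v3⟩ := hg1 a
    rcases lt_trichotomy (g (a + 2 * Real.pi)) (g a + 2 * Real.pi) with h | h | h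
    · exact absurd ((lk_add P a (g a)).mpr v3) (hg2 _ _ h (by linarith))
    · exact h
    · refine absurd ?_ (hg2 a (g (a + 2 * Real.pi) - 2 * Real.pi) (by linarith) (by linarith))
      rw [← lk_add]
      simpa using u3
  -- the last clause
  have hg4 : ∀ a, a + Real.pi ≤ g (g a + Real.pi) - Real.pi ∨
      Lk P (g (g a + Real.pi) - Real.pi) (a + Real.pi) := by
    intro a
    by_contra hcon
    push Not at hcon
    obtain ⟨h1, h2⟩ := hcon
    set b := g a with hb
    set c := g (b + Real.pi) - Real.pi with hcdef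
    obtain ⟨v1, v2, v3⟩ := hg1 a
    obtain ⟨w1, w2, w3⟩ := hg1 (b + Real.pi)
    obtain ⟨e, he, hnear⟩ := near hc h2
    -- choose c'
    obtain ⟨c', hc1, hc2⟩ : ∃ c', c < c' ∧ c' < min (c + e) (a + Real.pi) :=
      exists_between (lt_min (by linarith) h1)
    have hc3 : c' < c + e := lt_of_lt_of_le hc2 (min_le_left _ _)
    have hc4 : c' < a + Real.pi := lt_of_lt_of_le hc2 (min_le_right _ _)
    have n1 : ¬ Lk P c' (a + Real.pi) := by
      refine hnear c' (a + Real.pi) ?_ (by simpa using he)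
      rw [abs_lt]; constructor <;> linarith
    have n2 : ¬ Lk P (b + Real.pi) (c' + Real.pi) :=
      hg2 _ _ (by linarith) (by linarith)
    obtain ⟨e', he', hnear'⟩ := near hc n2
    have hbc : b < c' := by linarith
    obtain ⟨b', hb1, hb2⟩ : ∃ b', b < b' ∧ b' < min (b + e') c' :=
      exists_between (lt_min (by linarith) hbc)
    have hb3 : b' < b + e' := lt_of_lt_of_le hb2 (min_le_left _ _)
    have hb4 : b' < c' := lt_of_lt_of_le hb2 (min_le_right _ _)
    have n3 : ¬ Lk P (b' + Real.pi) (c' + Real.pi) := by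
      refine hnear' _ _ ?_ (by simpa using he')
      rw [abs_lt]; constructor <;> linarith
    have n4 : ¬ Lk P a b' := hg2 a b' hb1 (by linarith)
    rcases hA a b' c' (by linarith) hb4 hc4 with h | h | h
    · exact n4 h
    · exact n1 h
    · exact n3 h
  refine ⟨g, ⟨fun x => ?_, hg2, hg3, hg4⟩⟩
  obtain ⟨v1, v2, v3⟩ := hg1 x
  refine ⟨lt_of_le_of_ne v1 fun hx => ?_, v2, v3⟩
  -- step 2
  obtain ⟨w1, w2, w3⟩ := hg1 (x + Real.pi)
  set y := g (x + Real.pi) - Real.pi with hy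
  have q1 : Lk P y (x + Real.pi) := by
    rcases hg4 x with h | h
    · rw [← hx] at h
      linarith
    · rw [← hx] at h
      exact h
  have hxy : x < y := by
    refine lt_of_le_of_ne (by linarith) fun h => ?_
    rw [← h] at q1
    exact not_lk hi x q1
  obtain ⟨e, he, hnear⟩ := near hc (not_lk hi y)
  obtain ⟨z, hz1, hz2⟩ : ∃ z, y < z ∧ z < min (y + e) (x + Real.pi) :=
    exists_between (lt_min (by linarith) (by linarith))
  have hz3 : z < y + e := lt_of_lt_of_le hz2 (min_le_left _ _)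
  have hz4 : z < x + Real.pi := lt_of_lt_of_le hz2 (min_le_right _ _)
  have n1 : ¬ Lk P z (y + Real.pi) := by
    refine hnear z _ ?_ (by simpa using he)
    rw [abs_lt]; constructor <;> linarith
  have q2 : Lk P z (x + Real.pi) := lk_mono hz1.le hz4.le le_rfl (by linarith) q1
  obtain ⟨z1, z2, z3⟩ := hg1 z
  have q3 : g z = x + Real.pi := by
    rcases lt_trichotomy (g z) (x + Real.pi) with h | h | h
    · exact absurd q2 (hg2 _ _ h (by linarith))
    · exact h
    · exfalso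
      obtain ⟨p, hp1, hp2⟩ := z3
      obtain ⟨q, hq1, hq2⟩ := w3
      have := inF_unique hz4 h z2 hp1 hp2 hq1
      subst this
      refine n1 ⟨q, hp1, ?_⟩
      have e1 : y + Real.pi = g (x + Real.pi) := by rw [hy]; ring
      rw [e1]; exact hq2
  have e2 : g (g z + Real.pi) - Real.pi = x + Real.pi := by
    rw [q3, show x + Real.pi + Real.pi = x + 2 * Real.pi by ring, hg3, ← hx]
    ring
  rcases hg4 z with h | h
  · rw [e2] at h
    linarith
  · rw [e2] at h
    exact hg2 _ _ (by linarith) (by linarith) h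

end Pool.Agent.Zk67.M4
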