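import Pool.Agent.Zk84.M4.Stm4
import Pool.Agent.Zk86.M3W7

/-!
The weight `1/2` with twelve directions and one more parameter (module W7k).
-/

set_option autoImplicit false

namespace Pool.Agent.Zk67.M4

open Complex Set Topology Pool.Agent.Zk76.Wt Pool.Agent.Zk84.M3 Pool.Agent.Zk86.M3
open Pool.Agent.Zk84.M4 (Dom SelS SelC2 W7k)

/-- a point is a nonnegative multiple, with factor the gauge, of a point of the body -/
theorem exists_pt {K : Set (ℂ × ℂ)} (hK : Convex ℝ K) (hc : IsCompact K)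
    (h0 : (0 : ℂ × ℂ) ∈ interior K) (x : ℂ × ℂ) : ∃ p ∈ K, x = gauge K x • p := by
  have hn : K ∈ 𝓝 (0 : ℂ × ℂ) := mem_interior_iff_mem_nhds.1 h0
  rcases eq_or_ne x 0 with rfl | hx
  · exact ⟨0, interior_subset h0, by simp⟩
  · have hpos : 0 < gauge K x := by
      refine (gauge_pos (absorbent_nhds_zero hn) ?_).2 hx
      exact NormedSpace.isVonNBounded_of_isBounded ℝ hc.isBounded
    refine ⟨(gauge K x)⁻¹ • x, ?_, ?_⟩
    · have h1 : gauge K ((gauge K x)⁻¹ • x) ≤ 1 := by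
        rw [gauge_smul_of_nonneg (inv_nonneg.2 hpos.le), smul_eq_mul, inv_mul_cancel₀ hpos.ne']
      have h2 := (gauge_le_one_iff_mem_closure hK hn).1 h1
      rwa [hc.isClosed.closure_eq] at h2
    · rw [smul_smul, mul_inv_cancel₀ hpos.ne', one_smul]

theorem gauge_le_of_smul {K : Set (ℂ × ℂ)} {x p : ℂ × ℂ} {t : ℝ} (ht : 0 ≤ t) (hp : p ∈ K)
    (h : x = t • p) : gauge K x ≤ t := by
  rw [h, gauge_smul_of_nonneg ht, smul_eq_mul]
  exact mul_le_of_le_one_right ht (gauge_le_one_of_mem hp)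

theorem gauge_rot {K : Set (ℂ × ℂ)} (hB : Body (1 / 2) K) {ζ : ℂ} (hζ : ‖ζ‖ = 1) (x : ℂ × ℂ) :
    gauge K (ζ * x.1, ζ ^ 2 * x.2) ≤ gauge K x := by
  obtain ⟨p, hp, hx⟩ := exists_pt hB.conv hB.comp hB.zero x
  refine gauge_le_of_smul (gauge_nonneg x) (rot hB hζ hp) ?_
  have h1 := congrArg Prod.fst hx
  have h2 := congrArg Prod.snd hx
  simp only [Prod.smul_fst, Prod.smul_snd, Complex.real_smul] at h1 h2
  refine Prod.ext ?_ ?_
  · simp only [Prod.smul_fst, Complex.real_smul]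
    conv_lhs => rw [h1]
    ring
  · simp only [Prod.smul_snd, Complex.real_smul]
    conv_lhs => rw [h2]
    ring

/-- the case in which `(1, c)` is in the body with a small `c` -/
theorem w7_small (hW2 : W2) (hW4 : W4) {r0 : ℝ} (h00 : 0 ≤ r0)
    (hS : ∀ c : ℝ, 1 ≤ c → c ≤ 2 → ∃ c0 κ : ℝ, c0 ≤ c ∧ c ≤ κ ∧ SelS (1 + r0) c0 κ)
    {K : Set (ℂ × ℂ)} (hB : Body (1 / 2) K) {c : ℂ} (hcK : ((1 : ℂ), c) ∈ K) (hcr : ‖c‖ ≤ r0) :
    Cov 12 K := by
  classical
  have h0K : (0 : ℂ × ℂ) ∈ K := interior_subset hB.zero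
  have hn : K ∈ 𝓝 (0 : ℂ × ℂ) := mem_interior_iff_mem_nhds.1 hB.zero
  obtain ⟨hax2, -, -⟩ := hW2 (1 / 2) (by norm_num) (by norm_num) K hB
  have hc1 : ‖c‖ ≤ 1 := hB.le2 _ hcK
  obtain ⟨κ, hκ, hcκ⟩ := polar c
  set r : ℝ := ‖c‖ with hr
  have hr0 : 0 ≤ r := norm_nonneg c
  have F0 : ∀ ζ : ℂ, ‖ζ‖ = 1 → (ζ, c * ζ ^ 2) ∈ K := by
    intro ζ hζ
    have := rot hB hζ hcK
    simpa [mul_comm] using this
  have F3' : ∀ ζ : ℂ, ‖ζ‖ = 1 → ((1 / (1 + r) : ℝ) • ζ, (0 : ℂ)) ∈ K := by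
    intro ζ hζ
    have h1 := F0 ζ hζ
    have h2 : ((0 : ℂ), -(κ * ζ ^ 2)) ∈ K :=
      hax2 _ (by rw [norm_neg, norm_mul, norm_pow, hκ, hζ]; simp)
    have h3 := hB.conv h1 h2 (a := 1 / (1 + r)) (b := r / (1 + r)) (by positivity) (by positivity)
      (by field_simp)
    have h4 : (1 / (1 + r)) • (ζ, c * ζ ^ 2) + (r / (1 + r)) • ((0 : ℂ), -(κ * ζ ^ 2)) =
        ((1 / (1 + r) : ℝ) • ζ, (0 : ℂ)) := by
      refine Prod.ext ?_ ?_
      · simp
      · have h5 : (1 + (r : ℂ)) ≠ 0 := by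
          exact_mod_cast (by positivity : (0 : ℝ) < 1 + r).ne'
        simp only [Prod.smul_snd, Prod.snd_add, Complex.real_smul]
        rw [hcκ]
        push_cast
        field_simp
        ring
    rw [h4] at h3
    exact h3
  have F3 : ∀ z : ℂ, (1 + r) * ‖z‖ ≤ 1 → (z, (0 : ℂ)) ∈ K := by
    intro z hz
    obtain ⟨ζ, hζ, hz'⟩ := polar z
    have h1 := shrink hB.conv h0K (F3' ζ hζ) (t := (1 + r) * ‖z‖) (by positivity) hz
    have h2 : ((1 + r) * ‖z‖) • (((1 / (1 + r) : ℝ) • ζ, (0 : ℂ)) : ℂ × ℂ) = (z, 0) := by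
      refine Prod.ext ?_ ?_
      · have h5 : (1 + (r : ℂ)) ≠ 0 := by
          exact_mod_cast (by positivity : (0 : ℝ) < 1 + r).ne'
        simp only [Prod.smul_fst, Complex.real_smul]
        conv_rhs => rw [hz']
        push_cast
        field_simp
      · simp
    rw [h2] at h1
    exact h1
  have FW : ∀ z : ℂ, (1 + r0) * ‖z‖ ≤ 1 → (z, (0 : ℂ)) ∈ K := by
    intro z hz
    refine F3 z (le_trans ?_ hz)
    exact mul_le_mul_of_nonneg_right (by linarith) (norm_nonneg z)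
  -- the minimum of the gauge of `(1, e)`
  have habs := absorbent_nhds_zero (𝕜 := ℝ) hn
  have hadd : ∀ x y : ℂ × ℂ, gauge K (x + y) ≤ gauge K x + gauge K y :=
    fun x y => gauge_add_le hB.conv habs x y
  have hcomp : IsCompact (Metric.sphere (0 : ℂ) 1) := isCompact_sphere _ _
  have hcont : Continuous fun e : ℂ => gauge K ((1 : ℂ), e) :=
    (continuous_gauge hB.conv hn).comp (by fun_prop)
  obtain ⟨e0, he0, hmin⟩ := hcomp.exists_isMinOn ⟨1, by simp⟩ hcont.continuousOn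
  rw [mem_sphere_zero_iff_norm] at he0
  set cs : ℝ := gauge K ((1 : ℂ), e0) with hcs
  have hmin' : ∀ e : ℂ, ‖e‖ = 1 → cs ≤ gauge K ((1 : ℂ), e) := by
    intro e he
    exact hmin (mem_sphere_zero_iff_norm.2 he)
  have hcs0 : 0 ≤ cs := gauge_nonneg _
  have hcs1 : 1 ≤ cs := by
    obtain ⟨p, hp, hpe⟩ := exists_pt hB.conv hB.comp hB.zero ((1 : ℂ), e0)
    rw [← hcs] at hpe
    have h1 := congrArg (fun z : ℂ × ℂ => ‖z.1‖) hpe
    simp only [Prod.smul_fst, norm_one, norm_smul, Real.norm_of_nonneg hcs0] at h1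
    rw [h1]
    exact mul_le_of_le_one_right hcs0 (hB.le1 _ hp)
  have hcs2 : cs ≤ 2 := by
    refine (hmin' κ hκ).trans ?_
    have h1 : ((1 : ℂ), κ) = ((1 : ℂ), c) + ((0 : ℂ), κ - c) := by
      refine Prod.ext ?_ ?_ <;> simp
    rw [h1]
    refine (hadd _ _).trans ?_
    have h2 : gauge K ((1 : ℂ), c) ≤ 1 := gauge_le_one_of_mem hcK
    have h3 : gauge K ((0 : ℂ), κ - c) ≤ 1 := by
      refine gauge_le_one_of_mem (hax2 _ ?_)
      have h4 : κ - c = ((1 - r : ℝ) : ℂ) * κ := by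
        conv_lhs => rw [hcκ]
        push_cast
        ring
      rw [h4, norm_mul, hκ, mul_one, Complex.norm_real, Real.norm_of_nonneg (by linarith)]
      linarith
    linarith
  -- units
  have hunit : ∀ φ ψ : ℂ, ‖φ‖ = 1 → ‖ψ‖ = 1 → cs ≤ gauge K (φ, ψ) := by
    intro φ ψ hφ hψ
    have hφ0 : φ ≠ 0 := by
      rintro rfl
      simp at hφ
    have h1 := gauge_rot hB (ζ := φ⁻¹) (by rw [norm_inv, hφ, inv_one]) (φ, ψ)
    refine le_trans ?_ h1
    simp only [inv_mul_cancel₀ hφ0]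
    exact hmin' _ (by rw [norm_mul, norm_pow, norm_inv, hφ, hψ]; simp)
  have hax2' : ∀ (ψ : ℂ) (t : ℝ), ‖ψ‖ = 1 → 0 ≤ t → gauge K ((0 : ℂ), (t : ℂ) * ψ) ≤ t := by
    intro ψ t hψ ht
    refine gauge_le_of_smul ht (hax2 ψ hψ.le) ?_
    refine Prod.ext ?_ ?_ <;> simp
  have hax1' : ∀ (φ : ℂ) (t : ℝ), ‖φ‖ = 1 → 0 ≤ t →
      gauge K ((t : ℂ) * φ, (0 : ℂ)) ≤ (1 + r) * t := by
    intro φ t hφ ht
    refine gauge_le_of_smul (by positivity) (F3' φ hφ) ?_
    have h5 : (1 + (r : ℂ)) ≠ 0 := by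
      exact_mod_cast (by positivity : (0 : ℝ) < 1 + r).ne'
    refine Prod.ext ?_ ?_
    · simp only [Prod.smul_fst, Complex.real_smul]
      push_cast
      field_simp
    · simp
  have hdiag : ∀ (φ ψ : ℂ) (t : ℝ), ‖φ‖ = 1 → ‖ψ‖ = 1 → 0 ≤ t →
      cs * t ≤ gauge K ((t : ℂ) * φ, (t : ℂ) * ψ) := by
    intro φ ψ t hφ hψ ht
    have h1 : ((t : ℂ) * φ, (t : ℂ) * ψ) = t • (φ, ψ) := by
      refine Prod.ext ?_ ?_ <;> simp
    rw [h1, gauge_smul_of_nonneg ht, smul_eq_mul, mul_comm]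
    exact mul_le_mul_of_nonneg_left (hunit φ ψ hφ hψ) ht
  -- the domain
  obtain ⟨c0, k1, hc0, hk1, D, hDc, hD⟩ := hS cs hcs1 hcs2
  have he0' : ‖e0⁻¹‖ = 1 := by rw [norm_inv, he0, inv_one]
  have he00 : e0 ≠ 0 := by
    rintro rfl
    simp at he0
  have hdom : ∀ x ∈ K, Dom (1 + r0) c0 x.1 (e0⁻¹ * x.2) := by
    intro x hx
    have hn2 : ‖e0⁻¹ * x.2‖ = ‖x.2‖ := by rw [norm_mul, he0', one_mul]
    refine ⟨hB.le1 x hx, by rw [hn2]; exact hB.le2 x hx, fun hle => ?_, fun hle => ?_⟩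
    · rw [hn2] at hle ⊢
      refine (mul_le_mul_of_nonneg_right hc0 (norm_nonneg _)).trans ?_
      obtain ⟨φ, hφ, hφe⟩ := polar x.1
      obtain ⟨ψ, hψ, hψe⟩ := polar x.2
      refine (hdiag φ ψ ‖x.1‖ hφ hψ (norm_nonneg _)).trans ?_
      have h1 : ((‖x.1‖ : ℂ) * φ, (‖x.1‖ : ℂ) * ψ) =
          x + ((0 : ℂ), ((‖x.1‖ - ‖x.2‖ : ℝ) : ℂ) * ψ) := by
        refine Prod.ext ?_ ?_
        · simp only [Prod.fst_add, add_zero]
          exact hφe.symm
        · simp only [Prod.snd_add]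
          push_cast
          linear_combination -hψe
      rw [h1]
      refine (hadd _ _).trans (add_le_add (gauge_le_one_of_mem hx) (hax2' ψ _ hψ ?_))
      linarith
    · rw [hn2] at hle ⊢
      refine (mul_le_mul_of_nonneg_right hc0 (norm_nonneg _)).trans ?_
      obtain ⟨φ, hφ, hφe⟩ := polar x.1
      obtain ⟨ψ, hψ, hψe⟩ := polar x.2
      refine (hdiag φ ψ ‖x.2‖ hφ hψ (norm_nonneg _)).trans ?_
      have h1 : ((‖x.2‖ : ℂ) * φ, (‖x.2‖ : ℂ) * ψ) =
          x + (((‖x.2‖ - ‖x.1‖ : ℝ) : ℂ) * φ, (0 : ℂ)) := by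
        refine Prod.ext ?_ ?_
        · simp only [Prod.fst_add]
          push_cast
          linear_combination -hφe
        · simp only [Prod.snd_add, add_zero]
          exact hψe.symm
      rw [h1]
      refine (hadd _ _).trans (add_le_add (gauge_le_one_of_mem hx) ?_)
      refine (hax1' φ _ hφ (by linarith)).trans ?_
      exact mul_le_mul_of_nonneg_right (by linarith) (by linarith)
  -- the points `(z, e0 z ^ 2)`
  have G1 : ((1 / cs : ℝ) • (1 : ℂ), (1 / cs : ℝ) • e0) ∈ K := by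
    obtain ⟨p, hp, hpe⟩ := exists_pt hB.conv hB.comp hB.zero ((1 : ℂ), e0)
    rw [← hcs] at hpe
    have h1 : ((1 / cs : ℝ) • (1 : ℂ), (1 / cs : ℝ) • e0) = p := by
      have h2 : ((1 / cs : ℝ) • (1 : ℂ), (1 / cs : ℝ) • e0) = (1 / cs : ℝ) • ((1 : ℂ), e0) := rfl
      rw [h2, hpe, smul_smul, one_div, inv_mul_cancel₀ (by linarith), one_smul]
    rw [h1]
    exact hp
  have G2 : ∀ z : ℂ, ‖z‖ ≤ 1 → ∃ q ∈ K, (z, e0 * z ^ 2) = cs • q := by
    intro z hz
    obtain ⟨ζ, hζ, hz'⟩ := polar z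
    set t : ℝ := ‖z‖ with ht
    have ht0 : 0 ≤ t := norm_nonneg z
    have hcs0' : 0 < cs := by linarith
    have h1 := rot hB hζ G1
    have h2 : ((0 : ℂ), -((1 / cs : ℝ) * (e0 * ζ ^ 2))) ∈ K := by
      refine hax2 _ ?_
      rw [norm_neg, norm_mul, norm_mul, norm_pow, he0, hζ, Complex.norm_real,
        Real.norm_of_nonneg (by positivity)]
      simp only [one_pow, mul_one]
      rw [div_le_one hcs0']
      exact hcs1
    obtain ⟨p, hp, hpe⟩ := comb hB.conv h1 h2 (a := t) (b := t - t ^ 2) ht0 (by nlinarith)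
    have h3 := shrink hB.conv h0K hp (t := t + (t - t ^ 2)) (by nlinarith)
      (by nlinarith [sq_nonneg (1 - t)])
    rw [← hpe] at h3
    refine ⟨_, h3, ?_⟩
    have h5 : (cs : ℂ) ≠ 0 := by exact_mod_cast hcs0'.ne'
    refine Prod.ext ?_ ?_
    · simp only [Prod.smul_fst, Prod.fst_add, Complex.real_smul]
      conv_lhs => rw [hz']
      push_cast
      field_simp
      ring
    · simp only [Prod.smul_snd, Prod.snd_add, Complex.real_smul]
      conv_lhs => rw [hz']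
      push_cast
      field_simp
      ring
  have hW0 : 0 < 1 + r0 := by linarith
  -- the directions
  obtain ⟨S, hS', hcov⟩ := Pool.Agent.H765R3.Had.cover_of_dirs hB.conv hB.comp
    (D.image fun u => (u.1, e0 * u.2)) (by
      intro x hx
      obtain ⟨u, hu, l, w, b1, b2, a, e1, e2, z, hb1, hb2, ha, he1, he2, hz, hlt⟩ :=
        hD x.1 (e0⁻¹ * x.2) (hdom x hx)
      refine ⟨(u.1, e0 * u.2), Finset.mem_image_of_mem _ hu, ?_⟩
      set v1 : ℂ := ((⟨l, w / 2⟩ : ℂ) + b1 * (1 - e1) + b2 * (1 - e2)) * x.1 - a * z - u.1 with hv1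
      set v2 : ℂ := ((⟨l, w⟩ : ℂ) + b1 * (1 - e1 ^ 2) + b2 * (1 - e2 ^ 2)) * (e0⁻¹ * x.2)
        - a * z ^ 2 - u.2 with hv2
      obtain ⟨y, hy, hye⟩ := comb hB.conv (rot hB he1 hx) (rot hB he2 hx) hb1 hb2
      obtain ⟨p1, hp1, hp1e⟩ : ∃ p ∈ K, (v1, (0 : ℂ)) = ((1 + r0) * ‖v1‖) • p := by
        rcases eq_or_ne v1 0 with h | h
        · exact ⟨0, h0K, by rw [h]; simp⟩
        · have hpos : 0 < (1 + r0) * ‖v1‖ := mul_pos hW0 (norm_pos_iff.2 h)
          refine ⟨(((1 + r0) * ‖v1‖)⁻¹ • v1, 0), FW _ ?_, ?_⟩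
          · rw [norm_smul, Real.norm_of_nonneg (inv_nonneg.2 hpos.le)]
            have : (1 + r0) * (((1 + r0) * ‖v1‖)⁻¹ * ‖v1‖) =
                ((1 + r0) * ‖v1‖) * ((1 + r0) * ‖v1‖)⁻¹ := by ring
            rw [this, mul_inv_cancel₀ hpos.ne']
          · refine Prod.ext ?_ ?_
            · simp only [Prod.smul_fst]
              rw [smul_smul, mul_inv_cancel₀ hpos.ne', one_smul]
            · simp
      obtain ⟨p2, hp2, hp2e⟩ : ∃ p ∈ K, ((0 : ℂ), e0 * v2) = ‖v2‖ • p := by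
        obtain ⟨ζ, hζ, hζe⟩ := polar v2
        refine ⟨(0, e0 * ζ), hax2 _ (by rw [norm_mul, he0, hζ, one_mul]), ?_⟩
        refine Prod.ext (by simp) ?_
        simp only [Prod.smul_snd, Complex.real_smul]
        conv_lhs => rw [hζe]
        ring
      obtain ⟨q3, hq3, hq3e⟩ := G2 z hz
      obtain ⟨q, hq, hqe⟩ := comb hB.conv hp1 hp2 (a := (1 + r0) * ‖v1‖) (b := ‖v2‖)
        (by positivity) (norm_nonneg _)
      obtain ⟨q', hq', hqe'⟩ := comb hB.conv hq hq3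
        (a := (1 + r0) * ‖v1‖ + ‖v2‖) (b := a * cs) (by positivity) (by positivity)
      have hlt' : (1 + r0) * ‖v1‖ + ‖v2‖ + a * cs < l := by
        refine lt_of_le_of_lt ?_ hlt
        have : a * cs ≤ k1 * a := by
          rw [mul_comm]
          exact mul_le_mul_of_nonneg_right hk1 ha
        linarith
      refine hW4 (1 / 2) K hB x (u.1, e0 * u.2) y q' hx hy hq' l w (b1 + b2)
        ((1 + r0) * ‖v1‖ + ‖v2‖ + a * cs) (add_nonneg hb1 hb2) (by positivity) hlt' ?_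
      rw [← hqe', ← hqe, ← hp1e, ← hp2e, smul_sub, ← hye, mul_smul, ← hq3e]
      refine Prod.ext ?_ ?_
      · simp only [Prod.fst_sub, Prod.fst_add, Prod.smul_fst, Complex.real_smul]
        rw [hv1]
        have h6 : (⟨l, w / 2⟩ : ℂ) = l + w / 2 * I := by
          apply Complex.ext <;> simp
        rw [h6]
        push_cast
        ring
      · simp only [Prod.snd_sub, Prod.snd_add, Prod.smul_snd, Complex.real_smul]
        rw [hv2]
        have h6 : (⟨l, w⟩ : ℂ) = l + w * I := by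
          apply Complex.ext <;> simp
        rw [h6]
        push_cast
        field_simp
        ring)
  exact ⟨S, hS'.trans (Finset.card_image_le.trans hDc), hcov⟩

/-- the weight `1/2` -/
theorem w7k : W7k := by
  classical
  intro hW2 hW4 r0 h00 _ hC hS K hB
  have h0K : (0 : ℂ × ℂ) ∈ K := interior_subset hB.zero
  obtain ⟨hax2, hax1, -⟩ := hW2 (1 / 2) (by norm_num) (by norm_num) K hB
  -- the point `(1, c)`
  obtain ⟨x0, hx0, hx01⟩ := hB.hit1
  obtain ⟨c, hcK⟩ : ∃ c : ℂ, ((1 : ℂ), c) ∈ K := by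
    have h1 := rot hB (ζ := (starRingEnd ℂ) x0.1) (by rw [RCLike.norm_conj]; exact hx01) hx0
    have h2 : (starRingEnd ℂ) x0.1 * x0.1 = 1 := by
      rw [Complex.conj_mul', hx01]
      simp
    rw [h2] at h1
    exact ⟨_, h1⟩
  set r : ℝ := ‖c‖ with hr
  have hr0 : 0 ≤ r := norm_nonneg c
  have hr1 : r ≤ 1 := hB.le2 _ hcK
  rcases le_total r r0 with hrr | hrr
  · exact w7_small hW2 hW4 h00 hS hB hcK hrr
  obtain ⟨κ, hκ, hcκ⟩ := polar c
  have hκ0 : κ ≠ 0 := by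
    rintro rfl
    simp at hκ
  -- `(ζ, c ζ ^ 2)`
  have F0 : ∀ ζ : ℂ, ‖ζ‖ = 1 → (ζ, c * ζ ^ 2) ∈ K := by
    intro ζ hζ
    have := rot hB hζ hcK
    simpa [mul_comm] using this
  -- `(ζ / (1 + r), 0)`
  have F3' : ∀ ζ : ℂ, ‖ζ‖ = 1 → ((1 / (1 + r) : ℝ) • ζ, (0 : ℂ)) ∈ K := by
    intro ζ hζ
    have h1 := F0 ζ hζ
    have h2 : ((0 : ℂ), -(κ * ζ ^ 2)) ∈ K := hax2 _ (by rw [norm_neg, norm_mul, norm_pow, hκ, hζ]; simp)
    have h3 := hB.conv h1 h2 (a := 1 / (1 + r)) (b := r / (1 + r)) (by positivity) (by positivity)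
      (by field_simp)
    have h4 : (1 / (1 + r)) • (ζ, c * ζ ^ 2) + (r / (1 + r)) • ((0 : ℂ), -(κ * ζ ^ 2)) =
        ((1 / (1 + r) : ℝ) • ζ, (0 : ℂ)) := by
      refine Prod.ext ?_ ?_
      · simp
      · have h5 : (1 + (r : ℂ)) ≠ 0 := by
          exact_mod_cast (by positivity : (0 : ℝ) < 1 + r).ne'
        simp only [Prod.smul_snd, Prod.snd_add, Complex.real_smul]
        rw [hcκ]
        push_cast
        field_simp
        ring
    rw [h4] at h3
    exact h3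
  have F3 : ∀ z : ℂ, (1 + r) * ‖z‖ ≤ 1 → (z, (0 : ℂ)) ∈ K := by
    intro z hz
    obtain ⟨ζ, hζ, hz'⟩ := polar z
    have h1 := shrink hB.conv h0K (F3' ζ hζ) (t := (1 + r) * ‖z‖) (by positivity) hz
    have h2 : ((1 + r) * ‖z‖) • (((1 / (1 + r) : ℝ) • ζ, (0 : ℂ)) : ℂ × ℂ) = (z, 0) := by
      refine Prod.ext ?_ ?_
      · have h5 : (1 + (r : ℂ)) ≠ 0 := by
          exact_mod_cast (by positivity : (0 : ℝ) < 1 + r).ne'
        simp only [Prod.smul_fst, Complex.real_smul]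
        conv_rhs => rw [hz']
        push_cast
        field_simp
      · simp
    rw [h2] at h1
    exact h1
  have F2 : ∀ z : ℂ, √2 * ‖z‖ ≤ 1 → (z, (0 : ℂ)) ∈ K := by
    intro z hz
    refine hax1 z ?_
    have h1 : (1 / 2 : ℝ) * Real.pi / 2 = Real.pi / 4 := by ring
    rw [h1, Real.cos_pi_div_four]
    have h2 : √2 * √2 = 2 := Real.mul_self_sqrt (by norm_num)
    have h3 : 0 < √2 := by positivity
    nlinarith
  have FM : ∀ z : ℂ, min (√2) (1 + r) * ‖z‖ ≤ 1 → (z, (0 : ℂ)) ∈ K := by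
    intro z hz
    rcases min_choice (√2) (1 + r) with h | h
    · rw [h] at hz
      exact F2 z hz
    · rw [h] at hz
      exact F3 z hz
  -- `(z, c z ^ 2)`
  have F4 : ∀ z : ℂ, ‖z‖ ≤ 1 → (z, c * z ^ 2) ∈ K := by
    intro z hz
    obtain ⟨ζ, hζ, hz'⟩ := polar z
    set t : ℝ := ‖z‖ with ht
    have ht0 : 0 ≤ t := norm_nonneg z
    obtain ⟨p, hp, hpe⟩ := comb hB.conv (F0 ζ hζ) (F3' ζ hζ) (a := t ^ 2) (b := (t - t ^ 2) * (1 + r))
      (by positivity) (mul_nonneg (by nlinarith) (by positivity))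
    have h1 := shrink hB.conv h0K hp (t := t ^ 2 + (t - t ^ 2) * (1 + r))
      (add_nonneg (by positivity) (mul_nonneg (by nlinarith) (by positivity)))
      (by nlinarith [sq_nonneg (1 - t), mul_nonneg ht0 (sub_nonneg.2 hz)])
    rw [← hpe] at h1
    have h2 : t ^ 2 • (ζ, c * ζ ^ 2) + ((t - t ^ 2) * (1 + r)) •
        (((1 / (1 + r) : ℝ) • ζ, (0 : ℂ)) : ℂ × ℂ) = (z, c * z ^ 2) := by
      have h5 : (1 + (r : ℂ)) ≠ 0 := by
        exact_mod_cast (by positivity : (0 : ℝ) < 1 + r).ne'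
      refine Prod.ext ?_ ?_
      · simp only [Prod.smul_fst, Prod.fst_add, Complex.real_smul]
        rw [hz']
        push_cast
        field_simp
        ring
      · simp only [Prod.smul_snd, Prod.snd_add, Complex.real_smul]
        rw [hz']
        push_cast
        ring
    rw [h2] at h1
    exact h1
  have hM0 : 0 < min (√2) (1 + r) := lt_min (by positivity) (by positivity)
  -- the directions
  obtain ⟨D, hDc, hD⟩ := hC r hrr hr1
  obtain ⟨S, hS, hcov⟩ := Pool.Agent.H765R3.Had.cover_of_dirs hB.conv hB.comp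
    (D.image fun u => (u.1, κ * u.2)) (by
      intro x hx
      have hκ' : ‖κ⁻¹‖ = 1 := by rw [norm_inv, hκ, inv_one]
      obtain ⟨u, hu, l, w, b1, b2, a, e1, e2, z, hb1, hb2, ha, he1, he2, hz, hlt⟩ :=
        hD x.1 (κ⁻¹ * x.2) (hB.le1 x hx) (by rw [norm_mul, hκ', one_mul]; exact hB.le2 x hx)
      refine ⟨(u.1, κ * u.2), Finset.mem_image_of_mem _ hu, ?_⟩
      set v1 : ℂ := ((⟨l, w / 2⟩ : ℂ) + b1 * (1 - e1) + b2 * (1 - e2)) * x.1 - a * z - u.1 with hv1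
      set v2 : ℂ := ((⟨l, w⟩ : ℂ) + b1 * (1 - e1 ^ 2) + b2 * (1 - e2 ^ 2)) * (κ⁻¹ * x.2)
        - r * a * z ^ 2 - u.2 with hv2
      obtain ⟨y, hy, hye⟩ := comb hB.conv (rot hB he1 hx) (rot hB he2 hx) hb1 hb2
      -- the three summands
      obtain ⟨p1, hp1, hp1e⟩ : ∃ p ∈ K, (v1, (0 : ℂ)) = (min (√2) (1 + r) * ‖v1‖) • p := by
        rcases eq_or_ne v1 0 with h | h
        · exact ⟨0, h0K, by rw [h]; simp⟩
        · have hpos : 0 < min (√2) (1 + r) * ‖v1‖ := mul_pos hM0 (norm_pos_iff.2 h)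
          refine ⟨((min (√2) (1 + r) * ‖v1‖)⁻¹ • v1, 0), FM _ ?_, ?_⟩
          · rw [norm_smul, Real.norm_of_nonneg (inv_nonneg.2 hpos.le)]
            have : min (√2) (1 + r) * ((min (√2) (1 + r) * ‖v1‖)⁻¹ * ‖v1‖) =
                (min (√2) (1 + r) * ‖v1‖) * (min (√2) (1 + r) * ‖v1‖)⁻¹ := by ring
            rw [this, mul_inv_cancel₀ hpos.ne']
          · refine Prod.ext ?_ ?_
            · simp only [Prod.smul_fst]
              rw [smul_smul, mul_inv_cancel₀ hpos.ne', one_smul]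
            · simp
      obtain ⟨p2, hp2, hp2e⟩ : ∃ p ∈ K, ((0 : ℂ), κ * v2) = ‖v2‖ • p := by
        obtain ⟨ζ, hζ, hζe⟩ := polar v2
        refine ⟨(0, κ * ζ), hax2 _ (by rw [norm_mul, hκ, hζ, one_mul]), ?_⟩
        refine Prod.ext (by simp) ?_
        simp only [Prod.smul_snd, Complex.real_smul]
        conv_lhs => rw [hζe]
        ring
      obtain ⟨q, hq, hqe⟩ := comb hB.conv hp1 hp2 (a := min (√2) (1 + r) * ‖v1‖) (b := ‖v2‖)
        (by positivity) (norm_nonneg _)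
      obtain ⟨q', hq', hqe'⟩ := comb hB.conv hq (F4 z hz)
        (a := min (√2) (1 + r) * ‖v1‖ + ‖v2‖) (b := a) (by positivity) ha
      refine hW4 (1 / 2) K hB x (u.1, κ * u.2) y q' hx hy hq' l w (b1 + b2)
        (min (√2) (1 + r) * ‖v1‖ + ‖v2‖ + a) (add_nonneg hb1 hb2) (by positivity) hlt ?_
      rw [← hqe', ← hqe, ← hp1e, ← hp2e, smul_sub, ← hye]
      refine Prod.ext ?_ ?_
      · simp only [Prod.fst_sub, Prod.fst_add, Prod.smul_fst, Complex.real_smul]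
        rw [hv1]
        have h6 : (⟨l, w / 2⟩ : ℂ) = l + w / 2 * I := by
          apply Complex.ext <;> simp
        rw [h6]
        push_cast
        ring
      · simp only [Prod.snd_sub, Prod.snd_add, Prod.smul_snd, Complex.real_smul]
        rw [hv2]
        have h6 : (⟨l, w⟩ : ℂ) = l + w * I := by
          apply Complex.ext <;> simp
        rw [h6]
        have h7 : c * z ^ 2 = r * (κ * z ^ 2) := by
          rw [hcκ, ← hr]
          ring
        rw [h7]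
        push_cast
        field_simp
        ring)
  exact ⟨S, hS.trans (Finset.card_image_le.trans hDc), hcov⟩


end Pool.Agent.Zk67.M4
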